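import Pool.Agent.X130.CS.Metric

set_option autoImplicit false

/-!
# Causal curves near the null hypersurface `u = 0`
-/

open Set
open scoped ContDiff RealInnerProductSpace ComplexConjugate

namespace Pool.Agent.X130.CS

variable {m : ℕ}

section Curve

variable {γ : ℝ → Em m} (hγ : ContDiffOn ℝ ∞ γ (Icc 0 1))
  (hc : ∀ t ∈ Icc (0 : ℝ) 1, γ t ∈ (Mm m).carrier ∧
      (Mm m).FutureCausal (γ t) (derivWithin γ (Icc 0 1) t))

include hγ

theorem hasD {t : ℝ} (ht : t ∈ Icc (0 : ℝ) 1) :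
    HasDerivWithinAt γ (derivWithin γ (Icc 0 1) t) (Icc 0 1) t :=
  ((hγ.differentiableOn (by simp)) t ht).hasDerivWithinAt

theorem hasU {t : ℝ} (ht : t ∈ Icc (0 : ℝ) 1) :
    HasDerivWithinAt (fun s => (γ s).2.1) (derivWithin γ (Icc 0 1) t).2.1 (Icc 0 1) t :=
  (dU (m := m)).hasFDerivAt.comp_hasDerivWithinAt t (hasD hγ ht)

theorem hasF {t : ℝ} (ht : t ∈ Icc (0 : ℝ) 1) :
    HasDerivWithinAt (fun s => (γ s).2.2) (derivWithin γ (Icc 0 1) t).2.2 (Icc 0 1) t :=
  (dF (m := m)).hasFDerivAt.comp_hasDerivWithinAt t (hasD hγ ht)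

theorem hasZ {t : ℝ} (ht : t ∈ Icc (0 : ℝ) 1) :
    HasDerivWithinAt (fun s => (γ s).1) (derivWithin γ (Icc 0 1) t).1 (Icc 0 1) t :=
  (ContinuousLinearMap.fst ℝ ℂ (ℝ × EuclideanSpace ℝ (Fin m))).hasFDerivAt.comp_hasDerivWithinAt
    t (hasD hγ ht)

theorem hasRe {t : ℝ} (ht : t ∈ Icc (0 : ℝ) 1) :
    HasDerivWithinAt (fun s => (γ s).1.re) (derivWithin γ (Icc 0 1) t).1.re (Icc 0 1) t :=
  Complex.reCLM.hasFDerivAt.comp_hasDerivWithinAt t (hasZ hγ ht)

theorem hasIm {t : ℝ} (ht : t ∈ Icc (0 : ℝ) 1) :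
    HasDerivWithinAt (fun s => (γ s).1.im) (derivWithin γ (Icc 0 1) t).1.im (Icc 0 1) t :=
  Complex.imCLM.hasFDerivAt.comp_hasDerivWithinAt t (hasZ hγ ht)

theorem hasR {t : ℝ} (ht : t ∈ Icc (0 : ℝ) 1) :
    HasDerivWithinAt (fun s => rr (γ s)) (2 * rh (γ t) (derivWithin γ (Icc 0 1) t))
      (Icc 0 1) t := by
  have h1 := (hasRe hγ ht).pow 2
  have h2 := (hasIm hγ ht).pow 2
  have h3 := h1.add h2
  rw [rh_apply]
  refine h3.congr_deriv ?_
  simp
  ring

theorem contD : ContinuousOn (derivWithin γ (Icc 0 1)) (Icc 0 1) :=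
  hγ.continuousOn_derivWithin (uniqueDiffOn_Icc zero_lt_one) (by simp)

theorem cont_sg : ContinuousOn (fun t => sg (γ t) (derivWithin γ (Icc 0 1) t)) (Icc 0 1) := by
  have h1 : ContinuousOn (fun t => sg (γ t)) (Icc 0 1) :=
    (contDiff_sg (m := m)).continuous.comp_continuousOn hγ.continuousOn
  exact h1.clm_apply (contD hγ)

include hc

/-- The sign of `u` along a causal curve. -/
theorem exists_weight : ∃ K : ℝ → ℝ, MonotoneOn (fun t => (γ t).2.1 * Real.exp (K t))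
    (Icc 0 1) := by
  have hu : ContinuousOn (fun t => (γ t).2.1) (Icc 0 1) :=
    (dU (m := m)).continuous.comp_continuousOn hγ.continuousOn
  have hrr : ContinuousOn (fun t => rr (γ t)) (Icc 0 1) :=
    (contDiff_rr (m := m)).continuous.comp_continuousOn hγ.continuousOn
  have hpos : ∀ t ∈ Icc (0 : ℝ) 1, 0 < rr (γ t) := fun t ht =>
    rr_pos (mem_carrier.1 (hc t ht).1)
  set k : ℝ → ℝ := fun t => (γ t).2.1 * sg (γ t) (derivWithin γ (Icc 0 1) t) / (2 * rr (γ t))
    with hk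
  have hkc : ContinuousOn k (Icc 0 1) := by
    refine (hu.mul (cont_sg hγ)).div (continuousOn_const.mul hrr) ?_
    intro t ht
    have := hpos t ht
    positivity
  set k' : ℝ → ℝ := IccExtend zero_le_one (restrict (Icc 0 1) k) with hk'
  have hk'c : Continuous k' := (continuousOn_iff_continuous_restrict.1 hkc).Icc_extend'
  refine ⟨fun t => ∫ s in (0 : ℝ)..t, k' s, ?_⟩
  have hK : ∀ t, HasDerivAt (fun t => ∫ s in (0 : ℝ)..t, k' s) (k' t) t := fun t =>
    (hk'c.integral_hasStrictDerivAt 0 t).hasDerivAt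
  have hF : ∀ t ∈ Ioo (0 : ℝ) 1, HasDerivAt (fun t => (γ t).2.1 *
      Real.exp (∫ s in (0 : ℝ)..t, k' s)) ((derivWithin γ (Icc 0 1) t).2.1 *
      Real.exp (∫ s in (0 : ℝ)..t, k' s) + (γ t).2.1 *
      (Real.exp (∫ s in (0 : ℝ)..t, k' s) * k' t)) t := by
    intro t ht
    have h1 : HasDerivAt (fun s => (γ s).2.1) (derivWithin γ (Icc 0 1) t).2.1 t :=
      (hasU hγ (Ioo_subset_Icc_self ht)).hasDerivAt (Icc_mem_nhds ht.1 ht.2)
    exact h1.mul (hK t).exp
  refine monotoneOn_of_deriv_nonneg (convex_Icc 0 1) ?_ ?_ ?_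
  · refine hu.mul (Real.continuous_exp.comp_continuousOn ?_)
    exact (continuous_iff_continuousAt.2 fun t => (hK t).continuousAt).continuousOn
  · rw [interior_Icc]
    intro t ht
    exact (hF t ht).differentiableAt.differentiableWithinAt
  · rw [interior_Icc]
    intro t ht
    have ht' := Ioo_subset_Icc_self ht
    rw [(hF t ht).deriv]
    have hk1 : k' t = k t := by
      rw [hk', IccExtend_of_mem _ _ ht']
      rfl
    rw [hk1]
    obtain ⟨_, h2, _, _⟩ := fc_cons (mem_carrier.1 (hc t ht').1) (hc t ht').2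
    have hp := hpos t ht'
    have e : (derivWithin γ (Icc 0 1) t).2.1 * Real.exp (∫ s in (0 : ℝ)..t, k' s) + (γ t).2.1 *
        (Real.exp (∫ s in (0 : ℝ)..t, k' s) * k t) =
        Real.exp (∫ s in (0 : ℝ)..t, k' s) * ((2 * rr (γ t) * (derivWithin γ (Icc 0 1) t).2.1 +
          (γ t).2.1 ^ 2 * sg (γ t) (derivWithin γ (Icc 0 1) t)) / (2 * rr (γ t))) := by
      rw [hk]
      field_simp
    rw [e]
    exact mul_nonneg (Real.exp_pos _).le (div_nonneg h2 (by positivity))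

theorem sign_le {s t : ℝ} (hs : s ∈ Icc (0 : ℝ) 1) (ht : t ∈ Icc (0 : ℝ) 1) (hst : s ≤ t) :
    (0 ≤ (γ s).2.1 → 0 ≤ (γ t).2.1) ∧ (0 < (γ s).2.1 → 0 < (γ t).2.1) := by
  obtain ⟨K, hK⟩ := exists_weight hγ hc
  have h := hK hs ht hst
  simp only at h
  constructor
  · intro h0
    have h1 : 0 ≤ (γ s).2.1 * Real.exp (K s) := mul_nonneg h0 (Real.exp_pos _).le
    have h2 := h1.trans h
    by_contra hcon
    push Not at hcon
    have := mul_neg_of_neg_of_pos hcon (Real.exp_pos (K t))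
    linarith
  · intro h0
    have h1 : 0 < (γ s).2.1 * Real.exp (K s) := mul_pos h0 (Real.exp_pos _)
    have h2 := h1.trans_le h
    by_contra hcon
    push Not at hcon
    have := mul_nonneg (neg_nonneg.2 hcon) (Real.exp_pos (K t)).le
    linarith

/-- A causal curve which stays in the hypersurface `u = 0` is a logarithmic spiral. -/
theorem spiral (h0 : ∀ t ∈ Icc (0 : ℝ) 1, (γ t).2.1 = 0) :
    ∃ Φ : ℝ, 0 < Φ ∧ γ 1 = ((γ 0).1 * Complex.exp ((1 + Complex.I) * Φ), 0, (γ 0).2.2) := by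
  have hu : ∀ t ∈ Icc (0 : ℝ) 1, (derivWithin γ (Icc 0 1) t).2.1 = 0 := by
    intro t ht
    have h1 := hasU hγ ht
    have h2 : HasDerivWithinAt (fun s => (γ s).2.1) 0 (Icc 0 1) t :=
      (hasDerivWithinAt_const t (Icc 0 1) (0 : ℝ)).congr (fun s hs => h0 s hs) (h0 t ht)
    exact (uniqueDiffOn_Icc zero_lt_one t ht).eq_deriv _ h1 h2
  have key : ∀ t ∈ Icc (0 : ℝ) 1, 0 < rr (γ t) ∧ 0 < sg (γ t) (derivWithin γ (Icc 0 1) t) ∧
      rh (γ t) (derivWithin γ (Icc 0 1) t) = sg (γ t) (derivWithin γ (Icc 0 1) t) ∧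
      (derivWithin γ (Icc 0 1) t).2.2 = 0 := by
    intro t ht
    obtain ⟨h1, h2, h3, h4⟩ := fc_cons (mem_carrier.1 (hc t ht).1) (hc t ht).2
    rw [hu t ht, h0 t ht] at h3 h4
    have h5 : sg (γ t) (derivWithin γ (Icc 0 1) t) *
      (2 * rr (γ t) * 0 + 0 ^ 2 * sg (γ t) (derivWithin γ (Icc 0 1) t)) = 0 := by ring
    rw [h5] at h3
    have h6 : (rh (γ t) (derivWithin γ (Icc 0 1) t) -
      sg (γ t) (derivWithin γ (Icc 0 1) t)) ^ 2 = 0 := by
      have := sq_nonneg ‖(derivWithin γ (Icc 0 1) t).2.2‖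
      have := sq_nonneg (rh (γ t) (derivWithin γ (Icc 0 1) t) -
        sg (γ t) (derivWithin γ (Icc 0 1) t))
      linarith
    have h7 : ‖(derivWithin γ (Icc 0 1) t).2.2‖ ^ 2 = 0 := by
      have := sq_nonneg ‖(derivWithin γ (Icc 0 1) t).2.2‖
      have := sq_nonneg (rh (γ t) (derivWithin γ (Icc 0 1) t) -
        sg (γ t) (derivWithin γ (Icc 0 1) t))
      linarith
    refine ⟨rr_pos (mem_carrier.1 (hc t ht).1), by linarith, ?_, ?_⟩
    · have := pow_eq_zero_iff (two_ne_zero) |>.1 h6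
      linarith
    · exact norm_eq_zero.1 (pow_eq_zero_iff (two_ne_zero) |>.1 h7)
  -- the logarithm of the radius
  set L : ℝ → ℝ := fun t => Real.log (rr (γ t)) / 2 with hL
  have hLd : ∀ t ∈ Icc (0 : ℝ) 1, HasDerivWithinAt L
      (sg (γ t) (derivWithin γ (Icc 0 1) t) / rr (γ t)) (Icc 0 1) t := by
    intro t ht
    obtain ⟨k1, k2, k3, k4⟩ := key t ht
    have h1 := ((hasR hγ ht).log k1.ne').div_const 2
    refine h1.congr_deriv ?_
    rw [k3]
    field_simp
  have hLc : ContinuousOn L (Icc 0 1) := fun t ht => (hLd t ht).continuousWithinAt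
  have hLlt : L 0 < L 1 := by
    have hmono : StrictMonoOn L (Icc 0 1) := by
      refine strictMonoOn_of_deriv_pos (convex_Icc 0 1) hLc ?_
      rw [interior_Icc]
      intro t ht
      obtain ⟨k1, k2, k3, k4⟩ := key t (Ioo_subset_Icc_self ht)
      have h1 := (hLd t (Ioo_subset_Icc_self ht)).hasDerivAt (Icc_mem_nhds ht.1 ht.2)
      rw [h1.deriv]
      positivity
    exact hmono (left_mem_Icc.2 zero_le_one) (right_mem_Icc.2 zero_le_one) zero_lt_one
  -- `z exp (-(1 + i) L)` is constant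
  have hG : ∀ t ∈ Icc (0 : ℝ) 1, HasDerivWithinAt
      (fun t => (γ t).1 * Complex.exp (-(1 + Complex.I) * (L t : ℂ))) 0 (Icc 0 1) t := by
    intro t ht
    obtain ⟨k1, k2, k3, k4⟩ := key t ht
    have h1 := hasZ hγ ht
    have h2 : HasDerivWithinAt (fun t => (L t : ℂ))
        ((sg (γ t) (derivWithin γ (Icc 0 1) t) / rr (γ t) : ℝ) : ℂ) (Icc 0 1) t :=
      Complex.ofRealCLM.hasFDerivAt.comp_hasDerivWithinAt t (hLd t ht)
    have h3 := (h2.const_mul (-(1 + Complex.I))).cexp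
    have h4 := h1.mul h3
    refine h4.congr_deriv ?_
    have k1' : (rr (γ t) : ℂ) ≠ 0 := by exact_mod_cast k1.ne'
    have e1 : (derivWithin γ (Icc 0 1) t).1 = (1 + Complex.I) *
        ((sg (γ t) (derivWithin γ (Icc 0 1) t) / rr (γ t) : ℝ) : ℂ) * (γ t).1 := by
      rw [Complex.ofReal_div, mul_div_assoc', div_mul_eq_mul_div, eq_div_iff k1']
      have e2 : rh (γ t) (derivWithin γ (Icc 0 1) t) =
        sg (γ t) (derivWithin γ (Icc 0 1) t) := k3
      rw [rh_apply, sg_apply] at e2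
      rw [sg_apply]
      unfold rr
      generalize (γ t).1 = z at *
      generalize (derivWithin γ (Icc 0 1) t).1 = v at *
      apply Complex.ext
      · simp [pow_two]
        linear_combination z.re * e2
      · simp [pow_two]
        linear_combination z.im * e2
    rw [e1]
    ring
  have hGc := constant_of_has_deriv_right_zero (a := 0) (b := 1)
    (f := fun t => (γ t).1 * Complex.exp (-(1 + Complex.I) * (L t : ℂ)))
    (fun t ht => (hG t ht).continuousWithinAt)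
    (fun t ht => ((hG t (Ico_subset_Icc_self ht)).mono_of_mem_nhdsWithin
      (Icc_mem_nhdsGE_of_mem ht))) 1 (right_mem_Icc.2 zero_le_one)
  have hFc := constant_of_has_deriv_right_zero (a := 0) (b := 1)
    (f := fun t => (γ t).2.2)
    (fun t ht => (hasF hγ ht).continuousWithinAt)
    (fun t ht => by
      have h1 := hasF hγ (Ico_subset_Icc_self ht)
      rw [(key t (Ico_subset_Icc_self ht)).2.2.2] at h1
      exact h1.mono_of_mem_nhdsWithin (Icc_mem_nhdsGE_of_mem ht)) 1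
    (right_mem_Icc.2 zero_le_one)
  refine ⟨L 1 - L 0, by linarith, ?_⟩
  have hz : (γ 1).1 = (γ 0).1 * Complex.exp ((1 + Complex.I) * ((L 1 - L 0 : ℝ) : ℂ)) := by
    have h1 : (γ 1).1 = (γ 1).1 * Complex.exp (-(1 + Complex.I) * (L 1 : ℂ)) *
        Complex.exp ((1 + Complex.I) * (L 1 : ℂ)) := by
      rw [mul_assoc, ← Complex.exp_add]
      have e : -(1 + Complex.I) * (L 1 : ℂ) + (1 + Complex.I) * (L 1 : ℂ) = 0 := by ring
      rw [e, Complex.exp_zero, mul_one]
    rw [h1, hGc, mul_assoc, ← Complex.exp_add]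
    congr 2
    push_cast
    ring
  exact Prod.ext hz (Prod.ext (h0 1 (right_mem_Icc.2 zero_le_one)) hFc)

end Curve

/-- The relation of two points in the hypersurface `u = 0`. -/
def Spi (x y : Em m) : Prop :=
  ∃ Φ : ℝ, 0 < Φ ∧ y = (x.1 * Complex.exp ((1 + Complex.I) * Φ), 0, x.2.2)

theorem step_sign {x y : Em m} (h : (Mm m).SmoothCausal x y) :
    (0 ≤ x.2.1 → 0 ≤ y.2.1) ∧ (0 < x.2.1 → 0 < y.2.1) := by
  obtain ⟨γ, h1, rfl, rfl, h4⟩ := h
  exact sign_le h1 h4 (left_mem_Icc.2 zero_le_one) (right_mem_Icc.2 zero_le_one) zero_le_one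

theorem step_spi {x y : Em m} (h : (Mm m).SmoothCausal x y) (hx : x.2.1 = 0) (hy : y.2.1 = 0) :
    Spi x y := by
  obtain ⟨γ, h1, rfl, rfl, h4⟩ := h
  refine spiral h1 h4 fun t ht => ?_
  have h5 := (sign_le h1 h4 (left_mem_Icc.2 zero_le_one) ht ht.1).1 hx.symm.le
  have h6 := (sign_le h1 h4 ht (right_mem_Icc.2 zero_le_one) ht.2).2
  by_contra hcon
  have h7 := h6 (lt_of_le_of_ne h5 (Ne.symm hcon))
  rw [hy] at h7
  exact lt_irrefl _ h7

theorem after_sign {x y : Em m} (h : Relation.TransGen (Mm m).SmoothCausal x y) :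
    (0 ≤ x.2.1 → 0 ≤ y.2.1) ∧ (0 < x.2.1 → 0 < y.2.1) := by
  induction h with
  | single h => exact step_sign h
  | tail _ h ih =>
    exact ⟨fun hx => (step_sign h).1 (ih.1 hx), fun hx => (step_sign h).2 (ih.2 hx)⟩

theorem after_spi {x y : Em m} (h : Relation.TransGen (Mm m).SmoothCausal x y) (hx : x.2.1 = 0)
    (hy : y.2.1 = 0) : Spi x y := by
  induction h with
  | single h => exact step_spi h hx hy
  | tail h1 h2 ih =>
    rename_i b c
    have hb0 := (after_sign h1).1 hx.symm.le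
    have hb : b.2.1 = 0 := by
      by_contra hcon
      have h7 := (step_sign h2).2 (lt_of_le_of_ne hb0 (Ne.symm hcon))
      rw [hy] at h7
      exact lt_irrefl _ h7
    obtain ⟨Φ, hΦ, rfl⟩ := ih hb
    obtain ⟨Ψ, hΨ, rfl⟩ := step_spi h2 rfl hy
    refine ⟨Φ + Ψ, by positivity, ?_⟩
    refine Prod.ext ?_ rfl
    simp only
    rw [mul_assoc, ← Complex.exp_add]
    congr 2
    push_cast
    ring

end Pool.Agent.X130.CS
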