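import Mathlib

set_option autoImplicit false

/-!
# Spacetimes on open sets, the causal after relation and modal formulas
-/

open Set
open scoped ContDiff

namespace Pool.Agent.X130.CS

/-- Modal formulas. -/
inductive Fml
  | atom (i : ℕ)
  | neg (φ : Fml)
  | conj (φ ψ : Fml)
  | box (φ : Fml)

namespace Fml

/-- Disjunction. -/
def disj (φ ψ : Fml) : Fml := neg (conj (neg φ) (neg ψ))

/-- Implication. -/
def imp (φ ψ : Fml) : Fml := neg (conj φ (neg ψ))

/-- Possibility: `◇ = ¬ □ ¬`. -/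
def dia (φ : Fml) : Fml := neg (box (neg φ))

end Fml

/-- Truth at a point of a Kripke frame `(W, R)` under the valuation `V`. -/
def Sat {W : Type} (R : W → W → Prop) (V : ℕ → W → Prop) : Fml → W → Prop
  | .atom i, x => V i x
  | .neg φ, x => ¬ Sat R V φ x
  | .conj φ ψ, x => Sat R V φ x ∧ Sat R V ψ x
  | .box φ, x => ∀ y, R x y → Sat R V φ y

/-- Validity on a frame: truth at every point under every valuation. -/
def Valid {W : Type} (R : W → W → Prop) (φ : Fml) : Prop := ∀ V x, Sat R V φ x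

/-- `β_i = p_i ∧ ¬ p_j ∧ □ ¬ p_j`, where `p_i = atom i` and `p_j = atom j`. -/
def beta (i j : ℕ) : Fml := .conj (.atom i) (.conj (.neg (.atom j)) (.box (.neg (.atom j))))

/-- `γ_i = ◇ (◇ p_i ∧ ◇ q)`, where `p_i = atom i` and `q = atom 0`. -/
def gamma (i : ℕ) : Fml := .dia (.conj (.dia (.atom i)) (.dia (.atom 0)))

/-- The after-2 formula `(◇ β_1 ∧ ◇ β_2 ∧ ◇ q) → (γ_1 ∨ γ_2)`, with `p_1 = atom 1`,
`p_2 = atom 2` and `q = atom 0`. -/
def after2 : Fml :=
  .imp (.conj (.dia (beta 1 2)) (.conj (.dia (beta 2 1)) (.dia (.atom 0))))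
    (.disj (gamma 1) (gamma 2))

/-- A time-oriented spacetime whose underlying manifold is a connected open subset of the real
vector space `E`: a smooth Lorentzian metric `g` of signature `(-, +, ..., +)` and a smooth
timelike vector field `T`, which defines the time orientation. -/
structure Spacetime (E : Type) [NormedAddCommGroup E] [NormedSpace ℝ E] where
  /-- the set of the points -/
  carrier : Set E
  isOpen_carrier : IsOpen carrier
  connected : IsConnected carrier
  /-- the metric -/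
  g : E → E →L[ℝ] E →L[ℝ] ℝ
  smooth_g : ContDiffOn ℝ ∞ g carrier
  symm : ∀ p ∈ carrier, ∀ v w, g p v w = g p w v
  lorentz : ∀ p ∈ carrier, ∃ τ, g p τ τ < 0 ∧ ∀ v, v ≠ 0 → g p τ v = 0 → 0 < g p v v
  /-- the time orientation -/
  T : E → E
  smooth_T : ContDiffOn ℝ ∞ T carrier
  timelike_T : ∀ p ∈ carrier, g p (T p) (T p) < 0

namespace Spacetime

variable {E : Type} [NormedAddCommGroup E] [NormedSpace ℝ E]

/-- The tangent vector `v` at `p` is causal and future-directed. -/
def FutureCausal (M : Spacetime E) (p v : E) : Prop :=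
  v ≠ 0 ∧ M.g p v v ≤ 0 ∧ M.g p v (M.T p) < 0

/-- There is a smooth curve `γ : [0, 1] → M` from `x` to `y` whose velocity vectors are all causal
and future-directed. -/
def SmoothCausal (M : Spacetime E) (x y : E) : Prop :=
  ∃ γ : ℝ → E, ContDiffOn ℝ ∞ γ (Icc 0 1) ∧ γ 0 = x ∧ γ 1 = y ∧
    ∀ t ∈ Icc (0 : ℝ) 1, γ t ∈ M.carrier ∧
      M.FutureCausal (γ t) (derivWithin γ (Icc 0 1) t)

/-- The after relation: there is a causal curve from `x` to `y`, that is, a concatenation of
finitely many (at least one) smooth causal curves. -/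
def after (M : Spacetime E) (x y : M.carrier) : Prop :=
  Relation.TransGen M.SmoothCausal (x : E) (y : E)

/-- Causally non-totally vicious: some point is not on a closed causal curve. -/
def CNTV (M : Spacetime E) : Prop := ∃ x : M.carrier, ¬ M.after x x

end Spacetime

theorem sat_dia {W : Type} (R : W → W → Prop) (V : ℕ → W → Prop) (φ : Fml) (x : W) :
    Sat R V φ.dia x ↔ ∃ y, R x y ∧ Sat R V φ y := by
  simp only [Fml.dia, Sat]
  push Not
  rfl

theorem sat_imp {W : Type} (R : W → W → Prop) (V : ℕ → W → Prop) (φ ψ : Fml) (x : W) :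
    Sat R V (φ.imp ψ) x ↔ (Sat R V φ x → Sat R V ψ x) := by
  simp only [Fml.imp, Sat]
  tauto

theorem sat_disj {W : Type} (R : W → W → Prop) (V : ℕ → W → Prop) (φ ψ : Fml) (x : W) :
    Sat R V (φ.disj ψ) x ↔ (Sat R V φ x ∨ Sat R V ψ x) := by
  simp only [Fml.disj, Sat]
  tauto

/-- The first-order condition implies the validity of the after-2 formula. -/
theorem valid_of_cond {W : Type} (R : W → W → Prop)
    (h : ∀ x y₁ y₂ z, R x y₁ → R x y₂ → R x z → y₁ ≠ y₂ → ¬ R y₁ y₂ → ¬ R y₂ y₁ →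
      ∃ t, R x t ∧ R t z ∧ (R t y₁ ∨ R t y₂)) : Valid R after2 := by
  intro V x
  unfold after2
  rw [sat_imp, sat_disj]
  rintro ⟨h1, h2, h3⟩
  rw [sat_dia] at h1 h2 h3
  obtain ⟨y₁, h1, h11, h12, h13⟩ := h1
  obtain ⟨y₂, h2, h21, h22, h23⟩ := h2
  obtain ⟨z, hz, hz'⟩ := h3
  obtain ⟨t, ht1, ht2, ht3⟩ := h x y₁ y₂ z h1 h2 hz (by rintro rfl; exact h12 h21)
    (fun hh => h13 _ hh h21) (fun hh => h23 _ hh h11)
  unfold gamma
  rw [sat_dia, sat_dia]
  rcases ht3 with ht3 | ht3
  · exact Or.inl ⟨t, ht1, (sat_dia R V _ t).2 ⟨y₁, ht3, h11⟩, (sat_dia R V _ t).2 ⟨z, ht2, hz'⟩⟩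
  · exact Or.inr ⟨t, ht1, (sat_dia R V _ t).2 ⟨y₂, ht3, h21⟩, (sat_dia R V _ t).2 ⟨z, ht2, hz'⟩⟩

end Pool.Agent.X130.CS
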