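import Pool.Agent.X130.CS.Curves

set_option autoImplicit false

/-!
# The after-2 formula is valid in the spacetime `Mm m`
-/

open Set
open scoped ContDiff RealInnerProductSpace ComplexConjugate

namespace Pool.Agent.X130.CS

variable {m : ℕ}

theorem fc_of {p v : Em m} (h1 : gm p v v ≤ 0) (h2 : gm p v (Tm p) < 0) :
    (Mm m).FutureCausal p v := by
  refine ⟨?_, h1, h2⟩
  rintro rfl
  simp at h2

theorem mk_curve {z0 κ : ℂ} (hz : z0 ≠ 0) (h h' : ℝ → ℝ) (f0 Δ : EuclideanSpace ℝ (Fin m))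
    (hh : ContDiffOn ℝ ∞ h (Icc 0 1))
    (hd : ∀ t ∈ Icc (0 : ℝ) 1, HasDerivWithinAt h (h' t) (Icc 0 1) t)
    (c1 : ∀ t ∈ Icc (0 : ℝ) 1, ∀ N : ℝ, N = Complex.normSq z0 * Real.exp (2 * κ.re * t) →
      -(2 * N * h' t * (N * κ.im)) - h t ^ 2 * (N * κ.im) ^ 2 + (N * (κ.re - κ.im)) ^ 2 +
        ‖Δ‖ ^ 2 ≤ 0)
    (c2 : ∀ t ∈ Icc (0 : ℝ) 1, ∀ N : ℝ, N = Complex.normSq z0 * Real.exp (2 * κ.re * t) →
      0 < N * h' t + (1 + h t ^ 2) * (N * κ.im)) :
    (Mm m).SmoothCausal (z0, h 0, f0) (z0 * Complex.exp κ, h 1, f0 + Δ) := by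
  refine ⟨fun t => (z0 * Complex.exp ((t : ℂ) * κ), h t, f0 + t • Δ), ?_, ?_, ?_, ?_⟩
  · refine ContDiffOn.prodMk ?_ (hh.prodMk ?_)
    · refine ContDiff.contDiffOn ?_
      exact contDiff_const.mul ((Complex.ofRealCLM.contDiff.mul contDiff_const).cexp)
    · refine ContDiff.contDiffOn ?_
      exact contDiff_const.add (contDiff_id.smul contDiff_const)
  · simp
  · simp
  · intro t ht
    have hz1 : HasDerivWithinAt (fun t : ℝ => z0 * Complex.exp ((t : ℂ) * κ))
        (z0 * (Complex.exp ((t : ℂ) * κ) * κ)) (Icc 0 1) t := by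
      have h1 : HasDerivWithinAt (fun t : ℝ => (t : ℂ) * κ) κ (Icc 0 1) t := by
        have := (Complex.ofRealCLM.hasDerivWithinAt (x := t) (s := Icc 0 1)).mul_const κ
        simpa using this
      exact (h1.cexp).const_mul z0
    have hf1 : HasDerivWithinAt (fun t : ℝ => f0 + t • Δ) Δ (Icc 0 1) t := by
      have := ((hasDerivWithinAt_id t (Icc (0 : ℝ) 1)).smul_const Δ).const_add f0
      simpa using this
    have hγ : HasDerivWithinAt (fun t : ℝ => ((z0 * Complex.exp ((t : ℂ) * κ), h t, f0 + t • Δ) :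
        Em m)) (z0 * (Complex.exp ((t : ℂ) * κ) * κ), h' t, Δ) (Icc 0 1) t :=
      hz1.prodMk ((hd t ht).prodMk hf1)
    rw [hγ.derivWithin (uniqueDiffOn_Icc zero_lt_one t ht)]
    set w : ℂ := z0 * Complex.exp ((t : ℂ) * κ) with hw
    have hw0 : w ≠ 0 := mul_ne_zero hz (Complex.exp_ne_zero _)
    have hN : Complex.normSq w = Complex.normSq z0 * Real.exp (2 * κ.re * t) := by
      rw [hw, map_mul, Complex.normSq_eq_norm_sq (Complex.exp _), Complex.norm_exp,
        ← Real.exp_nat_mul]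
      congr 2
      simp
      ring
    have hN2 : w.re ^ 2 + w.im ^ 2 = Complex.normSq w := by
      rw [Complex.normSq_apply]; ring
    have hv : z0 * (Complex.exp ((t : ℂ) * κ) * κ) = w * κ := by rw [hw]; ring
    have hs : sg ((w, h t, f0 + t • Δ) : Em m)
        (z0 * (Complex.exp ((t : ℂ) * κ) * κ), h' t, Δ) = Complex.normSq w * κ.im := by
      rw [sg_apply, ← hN2]
      simp only [hv, Complex.mul_re, Complex.mul_im]
      ring
    have hr : rh ((w, h t, f0 + t • Δ) : Em m)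
        (z0 * (Complex.exp ((t : ℂ) * κ) * κ), h' t, Δ) = Complex.normSq w * κ.re := by
      rw [rh_apply, ← hN2]
      simp only [hv, Complex.mul_re, Complex.mul_im]
      ring
    have hrr : rr ((w, h t, f0 + t • Δ) : Em m) = Complex.normSq w := hN2
    refine ⟨mem_carrier.2 hw0, fc_of ?_ ?_⟩
    · rw [gm_self, hs, hr, hrr]
      simp only
      have := c1 t ht _ hN
      refine le_trans (le_of_eq ?_) this
      ring
    · rw [gm_Tm, hs, hrr]
      simp only
      have h1 := c2 t ht _ hN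
      have h2 : 0 < Complex.normSq w := Complex.normSq_pos.2 hw0
      have := mul_pos h2 h1
      linarith

/-- Up. -/
theorem up {z0 : ℂ} (hz : z0 ≠ 0) {u0 u1 : ℝ} (h : u0 < u1) (f0 : EuclideanSpace ℝ (Fin m)) :
    (Mm m).SmoothCausal (z0, u0, f0) (z0, u1, f0) := by
  have := mk_curve (m := m) (κ := 0) hz (fun t => u0 + t * (u1 - u0)) (fun _ => u1 - u0) f0 0
    ((contDiff_const.add (contDiff_id.mul contDiff_const)).contDiffOn)
    (fun t _ => by
      have := ((hasDerivWithinAt_id t (Icc (0 : ℝ) 1)).mul_const (u1 - u0)).const_add u0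
      simpa using this)
    (fun t _ N _ => by simp) (fun t _ N hN => by
      have : 0 < N := by
        rw [hN]
        exact mul_pos (Complex.normSq_pos.2 hz) (Real.exp_pos _)
      have h2 : 0 < u1 - u0 := by linarith
      simp only [Complex.zero_im, mul_zero, add_zero]
      exact mul_pos this h2)
  simpa using this

/-- Horizontal moves. -/
theorem level {z0 z1 : ℂ} (hz0 : z0 ≠ 0) (hz1 : z1 ≠ 0) {U : ℝ} (hU : 9 ≤ U ^ 2)
    (f0 f1 : EuclideanSpace ℝ (Fin m)) :
    (Mm m).SmoothCausal (z0, U, f0) (z1, U, f1) := by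
  set κ0 : ℂ := Complex.log (z1 / z0) with hκ0
  have hexp : z0 * Complex.exp κ0 = z1 := by
    rw [hκ0, Complex.exp_log (div_ne_zero hz1 hz0)]
    field_simp
  set ρ : ℝ := κ0.re with hρ
  set m0 : ℝ := Complex.normSq z0 * Real.exp (-(2 * |ρ|)) with hm0
  have hm0pos : 0 < m0 := mul_pos (Complex.normSq_pos.2 hz0) (Real.exp_pos _)
  set Δ := f1 - f0 with hΔ
  set B : ℝ := |ρ| + ‖Δ‖ / m0 + 1 with hB
  obtain ⟨k, hk⟩ := exists_nat_gt ((B - κ0.im) / (2 * Real.pi))
  have hpi := Real.pi_pos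
  rw [div_lt_iff₀ (by positivity)] at hk
  set κ : ℂ := κ0 + k * (2 * Real.pi * Complex.I) with hκ
  have hre : κ.re = ρ := by
    rw [hκ, hρ]
    simp
  have him : κ.im = κ0.im + k * (2 * Real.pi) := by
    rw [hκ]
    simp
  have hφ : B < κ.im := by rw [him]; linarith
  have hexp' : z0 * Complex.exp κ = z1 := by
    rw [hκ, (Complex.exp_periodic.nat_mul k) κ0, hexp]
  have hd0 : 0 ≤ ‖Δ‖ / m0 := by positivity
  have hρ0 := abs_nonneg ρ
  have hφ1 : |ρ| ≤ κ.im := by linarith
  have hφ2 : ‖Δ‖ / m0 ≤ κ.im := by linarith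
  have hφ0 : 0 < κ.im := by linarith
  have hNge : ∀ t ∈ Icc (0 : ℝ) 1, ∀ N : ℝ, N = Complex.normSq z0 * Real.exp (2 * κ.re * t) →
      m0 ≤ N := by
    intro t ht N hN
    rw [hN, hm0, hre]
    refine mul_le_mul_of_nonneg_left (Real.exp_le_exp.2 ?_) (Complex.normSq_nonneg _)
    have h1 : -(|ρ|) ≤ ρ * t := by
      have h2 : |ρ * t| ≤ |ρ| := by
        rw [abs_mul, abs_of_nonneg ht.1]
        exact mul_le_of_le_one_right (abs_nonneg _) ht.2
      linarith [neg_abs_le (ρ * t)]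
    nlinarith
  have key := mk_curve (m := m) (κ := κ) hz0 (fun _ => U) (fun _ => 0) f0 Δ contDiffOn_const
    (fun t _ => hasDerivWithinAt_const _ _ _)
    (fun t ht N hN => by
      have hN1 := hNge t ht N hN
      have hN0 : 0 < N := lt_of_lt_of_le hm0pos hN1
      have h1 : ‖Δ‖ ≤ N * κ.im := by
        rw [div_le_iff₀ hm0pos] at hφ2
        nlinarith
      have h2 : ‖Δ‖ ^ 2 ≤ (N * κ.im) ^ 2 := pow_le_pow_left₀ (norm_nonneg _) h1 2
      have h3 : (κ.re - κ.im) ^ 2 ≤ 4 * κ.im ^ 2 := by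
        rw [hre]
        have h4 := abs_le.1 hφ1
        nlinarith
      have h4 : (N * (κ.re - κ.im)) ^ 2 ≤ 4 * (N * κ.im) ^ 2 := by
        have := mul_le_mul_of_nonneg_left h3 (sq_nonneg N)
        nlinarith
      have h5 : 9 * (N * κ.im) ^ 2 ≤ U ^ 2 * (N * κ.im) ^ 2 :=
        mul_le_mul_of_nonneg_right hU (sq_nonneg _)
      have h6 : 0 ≤ (N * κ.im) ^ 2 := sq_nonneg _
      simp only [mul_zero, zero_mul, neg_zero, zero_sub]
      linarith)
    (fun t ht N hN => by
      have hN0 : 0 < N := lt_of_lt_of_le hm0pos (hNge t ht N hN)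
      simp only [mul_zero, zero_add]
      positivity)
  rw [hexp'] at key
  simpa [hΔ] using key

/-- Down. -/
theorem down {z0 : ℂ} (hz : z0 ≠ 0) {a b : ℝ} (hab : a < b) (h : 0 < a ∨ b < 0)
    (f0 : EuclideanSpace ℝ (Fin m)) :
    (Mm m).SmoothCausal (z0, a⁻¹, f0)
      (z0 * Complex.exp ((1 + Complex.I) * ((2 * (b - a) : ℝ) : ℂ)), b⁻¹, f0) := by
  have hD : ∀ t ∈ Icc (0 : ℝ) 1, a + t * (b - a) ≠ 0 := by
    intro t ht
    rcases h with h | h
    · have : 0 ≤ t * (b - a) := mul_nonneg ht.1 (by linarith)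
      exact ne_of_gt (by linarith)
    · have : t * (b - a) ≤ b - a := mul_le_of_le_one_left (by linarith) ht.2
      exact ne_of_lt (by linarith)
  set κ : ℂ := (1 + Complex.I) * ((2 * (b - a) : ℝ) : ℂ) with hκ
  have hre : κ.re = 2 * (b - a) := by
    rw [hκ]
    simp only [Complex.mul_re, Complex.add_re, Complex.one_re, Complex.I_re, Complex.ofReal_re,
      Complex.add_im, Complex.one_im, Complex.I_im, Complex.ofReal_im]
    ring
  have him : κ.im = 2 * (b - a) := by
    rw [hκ]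
    simp only [Complex.mul_im, Complex.add_re, Complex.one_re, Complex.I_re, Complex.ofReal_re,
      Complex.add_im, Complex.one_im, Complex.I_im, Complex.ofReal_im]
    ring
  have hlin : ∀ t : ℝ, HasDerivWithinAt (fun t : ℝ => a + t * (b - a)) (b - a) (Icc 0 1) t := by
    intro t
    have := ((hasDerivWithinAt_id t (Icc (0 : ℝ) 1)).mul_const (b - a)).const_add a
    simpa using this
  have key := mk_curve (m := m) (κ := κ) hz (fun t => (a + t * (b - a))⁻¹)
    (fun t => -(b - a) / (a + t * (b - a)) ^ 2) f0 0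
    (((contDiff_const.add (contDiff_id.mul contDiff_const)).contDiffOn).inv hD)
    (fun t ht => (hlin t).inv (hD t ht))
    (fun t ht N hN => by
      have hne := hD t ht
      rw [hre, him]
      simp only [norm_zero]
      refine le_of_eq ?_
      field_simp
      ring)
    (fun t ht N hN => by
      have hN0 : 0 < N := by
        rw [hN]
        exact mul_pos (Complex.normSq_pos.2 hz) (Real.exp_pos _)
      have hne := hD t ht
      have hab' : 0 < b - a := by linarith
      rw [him]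
      have e : N * (-(b - a) / (a + t * (b - a)) ^ 2) + (1 + ((a + t * (b - a))⁻¹) ^ 2) *
          (N * (2 * (b - a))) = N * (b - a) * (2 + ((a + t * (b - a))⁻¹) ^ 2) := by
        field_simp
        ring
      rw [e]
      positivity)
  simpa using key

/-- Along the null generators. -/
theorem along {z0 : ℂ} (hz : z0 ≠ 0) {Φ : ℝ} (hΦ : 0 < Φ) (f0 : EuclideanSpace ℝ (Fin m)) :
    (Mm m).SmoothCausal (z0, 0, f0)
      (z0 * Complex.exp ((1 + Complex.I) * (Φ : ℂ)), 0, f0) := by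
  set κ : ℂ := (1 + Complex.I) * (Φ : ℂ) with hκ
  have hre : κ.re = Φ := by
    rw [hκ]
    simp
  have him : κ.im = Φ := by
    rw [hκ]
    simp
  have key := mk_curve (m := m) (κ := κ) hz (fun _ => 0) (fun _ => 0) f0 0 contDiffOn_const
    (fun t _ => hasDerivWithinAt_const _ _ _)
    (fun t ht N hN => by rw [hre, him]; simp)
    (fun t ht N hN => by
      have hN0 : 0 < N := by
        rw [hN]
        exact mul_pos (Complex.normSq_pos.2 hz) (Real.exp_pos _)
      rw [him]
      simp only [mul_zero, zero_add, ne_eq, OfNat.ofNat_ne_zero, not_false_eq_true, zero_pow,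
        add_zero, one_mul]
      positivity)
  simpa using key

open Relation

/-- Every point with `u > 0` is after every point. -/
theorem toPlus {x y : Em m} (hx : x.1 ≠ 0) (hy : y.1 ≠ 0) (hu : 0 < y.2.1) :
    TransGen (Mm m).SmoothCausal x y := by
  obtain ⟨z0, u0, f0⟩ := x
  obtain ⟨z1, u1, f1⟩ := y
  simp only at hx hy hu
  set U : ℝ := |u0| + u1 + 3 with hU
  have hu0 := abs_nonneg u0
  have hu1 := le_abs_self u0
  have hUpos : 0 < U := by linarith
  have hlt : U⁻¹ < u1⁻¹ := inv_strictAnti₀ hu (by linarith)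
  set w : ℂ := z1 * Complex.exp (-((1 + Complex.I) * ((2 * (u1⁻¹ - U⁻¹) : ℝ) : ℂ))) with hw
  have hw0 : w ≠ 0 := mul_ne_zero hy (Complex.exp_ne_zero _)
  have s1 := up (m := m) hx (show u0 < U by linarith) f0
  have s2 := level (m := m) hx hw0 (U := U) (by nlinarith) f0 f1
  have s3 := down (m := m) hw0 hlt (Or.inl (inv_pos.2 hUpos)) f1
  have e : w * Complex.exp ((1 + Complex.I) * ((2 * (u1⁻¹ - U⁻¹) : ℝ) : ℂ)) = z1 := by
    rw [hw, mul_assoc, ← Complex.exp_add, neg_add_cancel, Complex.exp_zero, mul_one]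
  rw [e, inv_inv, inv_inv] at s3
  exact ((TransGen.single s1).tail s2).tail s3

/-- Every point with `u < 0` is on a closed causal curve. -/
theorem minusLoop {x : Em m} (hx : x.1 ≠ 0) (hu : x.2.1 < 0) :
    TransGen (Mm m).SmoothCausal x x := by
  obtain ⟨z0, u0, f0⟩ := x
  simp only at hx hu
  set U : ℝ := u0 - 3 with hU
  have hUneg : U < 0 := by linarith
  have hlt : u0⁻¹ < U⁻¹ := (inv_lt_inv_of_neg hu hUneg).2 (by linarith)
  have s1 := down (m := m) hx hlt (Or.inr (inv_lt_zero.2 hUneg)) f0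
  rw [inv_inv, inv_inv] at s1
  have s2 := level (m := m) (mul_ne_zero hx (Complex.exp_ne_zero
    ((1 + Complex.I) * ((2 * (U⁻¹ - u0⁻¹) : ℝ) : ℂ)))) hx (U := U) (by nlinarith) f0 f0
  have s3 := up (m := m) hx (show U < u0 by linarith) f0
  exact ((TransGen.single s1).tail s2).tail s3

theorem cntv (m : ℕ) : (Mm m).CNTV := by
  refine ⟨⟨(1, 0, 0), mem_carrier.2 one_ne_zero⟩, ?_⟩
  intro h
  obtain ⟨Φ, hΦ, h1⟩ := after_spi (m := m) h rfl rfl
  have h2 := congrArg (fun p : Em m => ‖p.1‖) h1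
  simp only [one_mul, Complex.norm_exp, norm_one] at h2
  have h3 : ((1 + Complex.I) * (Φ : ℂ)).re = Φ := by simp
  rw [h3] at h2
  have h4 := Real.add_one_lt_exp hΦ.ne'
  linarith

theorem valid (m : ℕ) : Valid (Mm m).after after2 := by
  refine valid_of_cond _ ?_
  rintro ⟨x, hx⟩ ⟨y₁, hy₁⟩ ⟨y₂, hy₂⟩ ⟨z, hz⟩ h1 h2 h3 hne h12 h21
  simp only [Spacetime.after] at h1 h2 h3 h12 h21
  have hx0 := mem_carrier.1 hx
  have hy10 := mem_carrier.1 hy₁
  have hy20 := mem_carrier.1 hy₂
  have hne' : y₁ ≠ y₂ := fun h => hne (Subtype.ext h)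
  rcases lt_or_ge x.2.1 0 with hu | hu
  · have hxx : (Mm m).after ⟨x, hx⟩ ⟨x, hx⟩ := minusLoop hx0 hu
    exact ⟨⟨x, hx⟩, hxx, h3, Or.inl h1⟩
  · exfalso
    have hp1 : ¬ 0 < y₁.2.1 := fun h => h21 (toPlus hy20 hy10 h)
    have hp2 : ¬ 0 < y₂.2.1 := fun h => h12 (toPlus hy10 hy20 h)
    have hq1 : y₁.2.1 = 0 := le_antisymm (not_lt.1 hp1) ((after_sign h1).1 hu)
    have hq2 : y₂.2.1 = 0 := le_antisymm (not_lt.1 hp2) ((after_sign h2).1 hu)
    have hq : x.2.1 = 0 := by
      by_contra hcon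
      exact hp1 ((after_sign h1).2 (lt_of_le_of_ne hu (Ne.symm hcon)))
    obtain ⟨Φ, hΦ, rfl⟩ := after_spi h1 hq hq1
    obtain ⟨Ψ, hΨ, rfl⟩ := after_spi h2 hq hq2
    rcases lt_trichotomy Φ Ψ with hlt | heq | hgt
    · apply h12
      have := along (m := m) hy10 (sub_pos.2 hlt) x.2.2
      simp only at this
      rw [mul_assoc, ← Complex.exp_add] at this
      have e : (1 + Complex.I) * (Φ : ℂ) + (1 + Complex.I) * ((Ψ - Φ : ℝ) : ℂ) =
        (1 + Complex.I) * (Ψ : ℂ) := by push_cast; ring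
      rw [e] at this
      exact TransGen.single this
    · exact hne' (by rw [heq])
    · apply h21
      have := along (m := m) hy20 (sub_pos.2 hgt) x.2.2
      simp only at this
      rw [mul_assoc, ← Complex.exp_add] at this
      have e : (1 + Complex.I) * (Ψ : ℂ) + (1 + Complex.I) * ((Φ - Ψ : ℝ) : ℂ) =
        (1 + Complex.I) * (Φ : ℂ) := by push_cast; ring
      rw [e] at this
      exact TransGen.single this

theorem finrank_Em (m : ℕ) : Module.finrank ℝ (Em m) = m + 3 := by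
  rw [Module.finrank_prod, Module.finrank_prod, Complex.finrank_real_complex,
    Module.finrank_self, finrank_euclideanSpace_fin]
  ring

end Pool.Agent.X130.CS
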