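import Pool.Agent.X130.CS.Defs

set_option autoImplicit false

/-!
# The spacetime `(ℂ \ 0) × ℝ × ℝ^m`
-/

open Set
open scoped ContDiff RealInnerProductSpace ComplexConjugate

namespace Pool.Agent.X130.CS

/-- The vector space `ℂ × ℝ × ℝ^m` of dimension `m + 3`; points `(z, u, f)`. -/
abbrev Em (m : ℕ) : Type := ℂ × ℝ × EuclideanSpace ℝ (Fin m)

variable {m : ℕ}

/-- The form `Im (conj z dz) = r² dφ`. -/
noncomputable def sg (p : Em m) : Em m →L[ℝ] ℝ :=
  Complex.imCLM.comp ((ContinuousLinearMap.mul ℝ ℂ (conj p.1)).comp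
    (ContinuousLinearMap.fst ℝ ℂ (ℝ × EuclideanSpace ℝ (Fin m))))

/-- The form `Re (conj z dz) = r dr`. -/
noncomputable def rh (p : Em m) : Em m →L[ℝ] ℝ :=
  Complex.reCLM.comp ((ContinuousLinearMap.mul ℝ ℂ (conj p.1)).comp
    (ContinuousLinearMap.fst ℝ ℂ (ℝ × EuclideanSpace ℝ (Fin m))))

/-- The form `du`. -/
noncomputable def dU : Em m →L[ℝ] ℝ :=
  (ContinuousLinearMap.fst ℝ ℝ (EuclideanSpace ℝ (Fin m))).comp
    (ContinuousLinearMap.snd ℝ ℂ (ℝ × EuclideanSpace ℝ (Fin m)))

/-- The projection to `ℝ^m`. -/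
noncomputable def dF : Em m →L[ℝ] EuclideanSpace ℝ (Fin m) :=
  (ContinuousLinearMap.snd ℝ ℝ (EuclideanSpace ℝ (Fin m))).comp
    (ContinuousLinearMap.snd ℝ ℂ (ℝ × EuclideanSpace ℝ (Fin m)))

/-- `r² = |z|²`. -/
noncomputable def rr (p : Em m) : ℝ := p.1.re ^ 2 + p.1.im ^ 2

theorem sg_apply (p v : Em m) : sg p v = p.1.re * v.1.im - p.1.im * v.1.re := by
  simp [sg]
  ring

theorem rh_apply (p v : Em m) : rh p v = p.1.re * v.1.re + p.1.im * v.1.im := by
  simp [rh]

@[simp] theorem dU_apply (v : Em m) : dU v = v.2.1 := rfl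

@[simp] theorem dF_apply (v : Em m) : dF v = v.2.2 := rfl

/-- The inner product of `ℝ^m` as a bilinear form. -/
noncomputable def ip (m : ℕ) :
    EuclideanSpace ℝ (Fin m) →L[ℝ] EuclideanSpace ℝ (Fin m) →L[ℝ] ℝ := innerSL ℝ

theorem ip_apply (v w : EuclideanSpace ℝ (Fin m)) : ip m v w = ⟪v, w⟫ := rfl

/-- The metric `-r² (du ⊗ σ + σ ⊗ du) - u² σ ⊗ σ + (ρ - σ) ⊗ (ρ - σ) + df²`, where
`σ = Im (conj z dz)` and `ρ = Re (conj z dz)`. -/
noncomputable def gm (p : Em m) : Em m →L[ℝ] Em m →L[ℝ] ℝ :=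
  -(rr p • (dU.smulRight (sg p) + (sg p).smulRight dU)) - p.2.1 ^ 2 • (sg p).smulRight (sg p) +
    (rh p - sg p).smulRight (rh p - sg p) + (ip m).bilinearComp dF dF

theorem gm_apply (p v w : Em m) : gm p v w =
    -(rr p * (v.2.1 * sg p w + sg p v * w.2.1)) - p.2.1 ^ 2 * (sg p v * sg p w) +
      (rh p v - sg p v) * (rh p w - sg p w) + ⟪v.2.2, w.2.2⟫ := by
  simp [gm, ip_apply]
  ring

theorem gm_self (p v : Em m) : gm p v v =
    -(2 * rr p * v.2.1 * sg p v) - p.2.1 ^ 2 * sg p v ^ 2 + (rh p v - sg p v) ^ 2 +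
      ‖v.2.2‖ ^ 2 := by
  rw [gm_apply, real_inner_self_eq_norm_sq]
  ring

theorem contDiff_sg : ContDiff ℝ ∞ (fun p : Em m => sg p) := by
  unfold sg
  have h : ContDiff ℝ ∞ (fun p : Em m => (ContinuousLinearMap.mul ℝ ℂ) (conj p.1)) := by
    refine (ContinuousLinearMap.mul ℝ ℂ).contDiff.comp ?_
    exact Complex.conjCLE.contDiff.comp contDiff_fst
  exact contDiff_const.clm_comp (h.clm_comp contDiff_const)

theorem contDiff_rh : ContDiff ℝ ∞ (fun p : Em m => rh p) := by
  unfold rh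
  have h : ContDiff ℝ ∞ (fun p : Em m => (ContinuousLinearMap.mul ℝ ℂ) (conj p.1)) := by
    refine (ContinuousLinearMap.mul ℝ ℂ).contDiff.comp ?_
    exact Complex.conjCLE.contDiff.comp contDiff_fst
  exact contDiff_const.clm_comp (h.clm_comp contDiff_const)

theorem contDiff_rr : ContDiff ℝ ∞ (fun p : Em m => rr p) := by
  unfold rr
  have h1 : ContDiff ℝ ∞ (fun p : Em m => p.1.re) := Complex.reCLM.contDiff.comp contDiff_fst
  have h2 : ContDiff ℝ ∞ (fun p : Em m => p.1.im) := Complex.imCLM.contDiff.comp contDiff_fst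
  exact (h1.pow 2).add (h2.pow 2)

theorem contDiff_gm : ContDiff ℝ ∞ (fun p : Em m => gm p) := by
  unfold gm
  have hu : ContDiff ℝ ∞ (fun p : Em m => p.2.1) := contDiff_fst.comp contDiff_snd
  have h1 := contDiff_sg (m := m)
  have h2 := contDiff_rh (m := m)
  have h3 := contDiff_rr (m := m)
  have hd : ContDiff ℝ ∞ (fun _ : Em m => (dU : Em m →L[ℝ] ℝ)) := contDiff_const
  exact ((((h3.smul ((hd.smulRight h1).add (h1.smulRight hd))).neg).sub
    ((hu.pow 2).smul (h1.smulRight h1))).add ((h2.sub h1).smulRight (h2.sub h1))).add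
    contDiff_const

theorem rr_pos {p : Em m} (hp : p.1 ≠ 0) : 0 < rr p := by
  have h : Complex.normSq p.1 = rr p := by
    rw [Complex.normSq_apply]
    unfold rr
    ring
  rw [← h]
  exact Complex.normSq_pos.2 hp

/-- The time orientation `∂_φ + r ∂_r + ∂_u`. -/
noncomputable def Tm (p : Em m) : Em m := ((1 + Complex.I) * p.1, 1, 0)

theorem sg_Tm (p : Em m) : sg p (Tm p) = rr p := by
  rw [sg_apply]
  simp [Tm, rr]
  ring

theorem rh_Tm (p : Em m) : rh p (Tm p) = rr p := by
  rw [rh_apply]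
  simp [Tm, rr]
  ring

theorem gm_Tm (p v : Em m) : gm p v (Tm p) = -(rr p * (rr p * v.2.1 + (1 + p.2.1 ^ 2) * sg p v)) := by
  rw [gm_apply, sg_Tm, rh_Tm]
  simp [Tm]
  ring

/-- The spacetime. -/
noncomputable def Mm (m : ℕ) : Spacetime (Em m) where
  carrier := {0}ᶜ ×ˢ univ
  isOpen_carrier := isOpen_compl_singleton.prod isOpen_univ
  connected := by
    refine IsConnected.prod ?_ isConnected_univ
    refine isConnected_compl_singleton_of_one_lt_rank ?_ 0
    rw [Complex.rank_real_complex]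
    exact Cardinal.one_lt_two
  g := gm
  smooth_g := contDiff_gm.contDiffOn
  symm := by
    intro p _ v w
    rw [gm_apply, gm_apply, real_inner_comm]
    ring
  lorentz := by
    intro p hp
    have hp0 : p.1 ≠ 0 := by simpa using hp
    have hr := rr_pos hp0
    refine ⟨Tm p, ?_, ?_⟩
    · rw [gm_Tm, sg_Tm]
      simp only [Tm]
      have : 0 < rr p * (rr p * 1 + (1 + p.2.1 ^ 2) * rr p) := by positivity
      linarith
    · intro v hv h0
      have h0' : gm p v (Tm p) = 0 := by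
        rw [← h0, gm_apply, gm_apply, real_inner_comm]
        ring
      rw [gm_Tm] at h0'
      have h1 : rr p * v.2.1 = -((1 + p.2.1 ^ 2) * sg p v) := by
        have : rr p * v.2.1 + (1 + p.2.1 ^ 2) * sg p v = 0 := by
          rcases mul_eq_zero.1 (neg_eq_zero.1 h0') with h | h
          · exact absurd h hr.ne'
          · exact h
        linarith
      have h2 : gm p v v = (2 + p.2.1 ^ 2) * sg p v ^ 2 + (rh p v - sg p v) ^ 2 +
          ‖v.2.2‖ ^ 2 := by
        rw [gm_self]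
        have : 2 * rr p * v.2.1 * sg p v = 2 * (rr p * v.2.1) * sg p v := by ring
        rw [this, h1]
        ring
      rw [h2]
      by_contra hcon
      push Not at hcon
      have h3 : 0 ≤ (2 + p.2.1 ^ 2) * sg p v ^ 2 := by positivity
      have h4 : 0 ≤ (rh p v - sg p v) ^ 2 := sq_nonneg _
      have h5 : 0 ≤ ‖v.2.2‖ ^ 2 := sq_nonneg _
      have e1 : (2 + p.2.1 ^ 2) * sg p v ^ 2 = 0 := by linarith
      have e2 : (rh p v - sg p v) ^ 2 = 0 := by linarith
      have e3 : ‖v.2.2‖ ^ 2 = 0 := by linarith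
      have e4 : sg p v = 0 := by
        rcases mul_eq_zero.1 e1 with h | h
        · exfalso
          have : 0 < 2 + p.2.1 ^ 2 := by positivity
          linarith
        · exact pow_eq_zero_iff (two_ne_zero) |>.1 h
      have e5 : rh p v = 0 := by
        have := pow_eq_zero_iff (two_ne_zero) |>.1 e2
        linarith
      have e6 : v.2.2 = 0 := by
        have := pow_eq_zero_iff (two_ne_zero) |>.1 e3
        exact norm_eq_zero.1 this
      have e7 : v.2.1 = 0 := by
        rw [e4, mul_zero, neg_zero] at h1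
        rcases mul_eq_zero.1 h1 with h | h
        · exact absurd h hr.ne'
        · exact h
      rw [sg_apply] at e4
      rw [rh_apply] at e5
      apply hv
      have e8 : v.1.re = 0 := by
        have h : rr p * v.1.re = 0 := by
          unfold rr
          linear_combination p.1.re * e5 - p.1.im * e4
        rcases mul_eq_zero.1 h with h | h
        · exact absurd h hr.ne'
        · exact h
      have e9 : v.1.im = 0 := by
        have h : rr p * v.1.im = 0 := by
          unfold rr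
          linear_combination p.1.im * e5 + p.1.re * e4
        rcases mul_eq_zero.1 h with h | h
        · exact absurd h hr.ne'
        · exact h
      refine Prod.ext (Complex.ext e8 e9) (Prod.ext e7 e6)
  T := Tm
  smooth_T := by
    refine ContDiff.contDiffOn ?_
    unfold Tm
    exact (contDiff_const.mul contDiff_fst).prodMk contDiff_const
  timelike_T := by
    intro p hp
    have hp0 : p.1 ≠ 0 := by simpa using hp
    have hr := rr_pos hp0
    rw [gm_Tm, sg_Tm]
    simp only [Tm]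
    have : 0 < rr p * (rr p * 1 + (1 + p.2.1 ^ 2) * rr p) := by positivity
    linarith

theorem mem_carrier {p : Em m} : p ∈ (Mm m).carrier ↔ p.1 ≠ 0 := by
  simp [Mm]

/-- Consequences of `FutureCausal`. -/
theorem fc_cons {p v : Em m} (hp : p.1 ≠ 0) (h : (Mm m).FutureCausal p v) :
    0 ≤ sg p v ∧ 0 ≤ 2 * rr p * v.2.1 + p.2.1 ^ 2 * sg p v ∧
    (rh p v - sg p v) ^ 2 + ‖v.2.2‖ ^ 2 ≤ sg p v * (2 * rr p * v.2.1 + p.2.1 ^ 2 * sg p v) ∧
    0 < rr p * v.2.1 + (1 + p.2.1 ^ 2) * sg p v := by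
  obtain ⟨_, h1, h2⟩ := h
  have hr := rr_pos hp
  have h1' : gm p v v ≤ 0 := h1
  have h2' : gm p v (Tm p) < 0 := h2
  rw [gm_self] at h1'
  rw [gm_Tm] at h2'
  have h3 : 0 < rr p * v.2.1 + (1 + p.2.1 ^ 2) * sg p v := by
    by_contra hcon
    push Not at hcon
    have := mul_nonneg hr.le (neg_nonneg.2 hcon)
    linarith
  have h4 : (rh p v - sg p v) ^ 2 + ‖v.2.2‖ ^ 2 ≤
      sg p v * (2 * rr p * v.2.1 + p.2.1 ^ 2 * sg p v) := by
    nlinarith
  have h5 : 0 ≤ sg p v * (2 * rr p * v.2.1 + p.2.1 ^ 2 * sg p v) :=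
    le_trans (by positivity) h4
  have h6 : 0 ≤ sg p v := by
    by_contra hcon
    push Not at hcon
    have h7 : 2 * rr p * v.2.1 + p.2.1 ^ 2 * sg p v ≤ 0 := by
      by_contra h8
      push Not at h8
      have := mul_neg_of_neg_of_pos hcon h8
      linarith
    nlinarith [mul_nonneg (sq_nonneg p.2.1) (neg_nonneg.2 hcon.le)]
  refine ⟨h6, ?_, h4, h3⟩
  rcases h6.eq_or_lt with h7 | h7
  · rw [← h7] at h3 ⊢
    nlinarith
  · by_contra h8
    push Not at h8
    have := mul_neg_of_pos_of_neg h7 h8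
    linarith

end Pool.Agent.X130.CS
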